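import Mathlib

namespace Pool.Agent.H11.Trade

open Finset

abbrev P (m : ℕ) := Fin (m + 1) × Bool × Fin 3
abbrev C (m : ℕ) := (Fin (m + 1) × Fin 3 × Fin 3) ⊕ (Fin m × Bool × Fin 3)

def sup {m : ℕ} : C m → Finset (P m)
  | .inl c => {(c.1, true, c.2.1), (c.1, false, c.2.2)}
  | .inr c => {(c.1.succ, c.2.1, c.2.2), (c.1.castSucc, !c.2.1, c.2.2 + 1),
      (c.1.castSucc, !c.2.1, c.2.2 + 2)}

def vec {m : ℕ} (p : P m) : C m × Bool → Bool := fun i => xor (decide (p ∈ sup i.1)) i.2

def emb {ι : Type} (x : ι → Bool) : ι → ℝ := fun i => ((x i).toNat : ℝ)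

lemma emb01 {ι : Type} (x : ι → Bool) (i : ι) : emb x i = 0 ∨ emb x i = 1 := by
  unfold emb
  cases x i <;> simp

lemma emb_inj {ι : Type} {x y : ι → Bool} (h : emb x = emb y) : x = y := by
  funext i
  have := congrFun h i
  unfold emb at this
  cases hx : x i <;> cases hy : y i <;> simp_all

lemma sum_inl {m : ℕ} (g : P m → ℝ) (l : Fin (m + 1)) (a b : Fin 3) :
    ∑ p ∈ sup (.inl (l, a, b)), g p = g (l, true, a) + g (l, false, b) := by
  unfold sup
  rw [Finset.sum_pair (by simp)]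

lemma sum_inr {m : ℕ} (g : P m → ℝ) (l : Fin m) (s : Bool) (a : Fin 3) :
    ∑ p ∈ sup (.inr (l, s, a)), g p =
      g (l.succ, s, a) + (g (l.castSucc, !s, a + 1) + g (l.castSucc, !s, a + 2)) := by
  unfold sup
  have h1 : a + 1 ≠ a + 2 := by revert a; decide
  rw [Finset.sum_insert (by cases s <;> simp), Finset.sum_pair (by simp [h1])]

lemma comb_false {m : ℕ} (g : P m → ℝ) (c : C m) :
    ∑ p, g p * emb (vec p) (c, false) = ∑ p ∈ sup c, g p := by
  have : ∀ p, g p * emb (vec p) (c, false) = if p ∈ sup c then g p else 0 := by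
    intro p
    by_cases h : p ∈ sup c <;> simp [emb, vec, h]
  simp_rw [this]
  rw [Finset.sum_ite_mem, Finset.univ_inter]

lemma comb_true {m : ℕ} (g : P m → ℝ) (c : C m) :
    ∑ p, g p * emb (vec p) (c, true) = ∑ p, g p - ∑ p ∈ sup c, g p := by
  rw [← comb_false, ← Finset.sum_sub_distrib]
  refine Finset.sum_congr rfl (fun p _ => ?_)
  by_cases h : p ∈ sup c <;> simp [emb, vec, h]

lemma sum_all {m : ℕ} (g : P m → ℝ) :
    ∑ p, g p = ∑ l : Fin (m + 1), (g (l, true, 0) + g (l, true, 1) + g (l, true, 2) +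
      (g (l, false, 0) + g (l, false, 1) + g (l, false, 2))) := by
  rw [Fintype.sum_prod_type]
  refine Finset.sum_congr rfl (fun l _ => ?_)
  rw [Fintype.sum_prod_type]
  simp [Fin.sum_univ_three]

/-- balanced weightings are annihilated by every coordinate -/
lemma balanced {m : ℕ} (g : P m → ℝ) (c : Fin (m + 1) → ℝ) (h1 : ∀ l a, g (l, true, a) = c l)
    (h2 : ∀ l a, g (l, false, a) = - c l) (h3 : ∀ l : Fin m, c l.succ = 2 * c l.castSucc)
    (i : C m × Bool) : ∑ p, g p * emb (vec p) i = 0 := by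
  have h0 : ∑ p, g p = 0 := by
    rw [sum_all]
    refine Finset.sum_eq_zero (fun l _ => ?_)
    simp only [h1, h2]; ring
  have h4 : ∀ k : C m, ∑ p ∈ sup k, g p = 0 := by
    rintro (⟨l, a, b⟩ | ⟨l, s, a⟩)
    · rw [sum_inl, h1, h2]; ring
    · rw [sum_inr]
      cases s
      · simp only [Bool.not_false, h1, h2, h3]; ring
      · simp only [Bool.not_true, h1, h2, h3]; ring
  obtain ⟨k, b⟩ := i
  cases b
  · rw [comb_false, h4]
  · rw [comb_true, h4, h0]; ring

lemma level0 (u v : Fin 3 → ℝ) (h : ∀ a b, u a + v b = 0 ∨ u a + v b = 1)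
    (ht : u 0 + u 1 + u 2 + (v 0 + v 1 + v 2) = 0) (a b : Fin 3) : u a + v b = 0 := by
  have hn : ∀ a b, 0 ≤ u a + v b := fun a b => by rcases h a b with h | h <;> linarith
  have h00 := hn 0 0
  have h01 := hn 0 1
  have h02 := hn 0 2
  have h10 := hn 1 0
  have h11 := hn 1 1
  have h12 := hn 1 2
  have h20 := hn 2 0
  have h21 := hn 2 1
  have h22 := hn 2 2
  fin_cases a <;> fin_cases b <;> simp <;> linarith

lemma level1 (u v : Fin 3 → ℝ) (h : ∀ a b, u a + v b = 0 ∨ u a + v b = 1)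
    (ht : u 0 + u 1 + u 2 + (v 0 + v 1 + v 2) = 1) :
    ∃ (s : Bool) (a0 : Fin 3), ∀ a b, u a + v b =
      (if (true, a) = (s, a0) then 1 else 0) + (if (false, b) = (s, a0) then 1 else 0) := by
  have h00 := h 0 0
  have h01 := h 0 1
  have h02 := h 0 2
  have h10 := h 1 0
  have h11 := h 1 1
  have h12 := h 1 2
  have h20 := h 2 0
  have h21 := h 2 1
  have h22 := h 2 2
  have fin : ∀ (s : Bool) (a0 : Fin 3),
      (u 0 + v 0 = (if (true, (0 : Fin 3)) = (s, a0) then 1 else 0) +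
        (if (false, (0 : Fin 3)) = (s, a0) then 1 else 0)) →
      (u 1 - u 0 = (if (true, (1 : Fin 3)) = (s, a0) then 1 else 0) -
        (if (true, (0 : Fin 3)) = (s, a0) then 1 else 0)) →
      (u 2 - u 0 = (if (true, (2 : Fin 3)) = (s, a0) then 1 else 0) -
        (if (true, (0 : Fin 3)) = (s, a0) then 1 else 0)) →
      (v 1 - v 0 = (if (false, (1 : Fin 3)) = (s, a0) then 1 else 0) -
        (if (false, (0 : Fin 3)) = (s, a0) then 1 else 0)) →
      (v 2 - v 0 = (if (false, (2 : Fin 3)) = (s, a0) then 1 else 0) -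
        (if (false, (0 : Fin 3)) = (s, a0) then 1 else 0)) →
      ∀ a b, u a + v b =
        (if (true, a) = (s, a0) then 1 else 0) + (if (false, b) = (s, a0) then 1 else 0) := by
    intro s a0 e0 e1 e2 e3 e4 a b
    fin_cases a <;> fin_cases b <;> simp only [Fin.zero_eta, Fin.mk_one, Fin.reduceFinMk] <;>
      linarith
  rcases h00 with h00 | h00 <;> rcases h11 with h11 | h11 <;> rcases h22 with h22 | h22 <;>
    first
    | (exfalso; linarith)
    | skip
  all_goals
    rcases h01 with h01 | h01 <;> rcases h12 with h12 | h12 <;> rcases h20 with h20 | h20 <;>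
    first
    | (exfalso; linarith)
    | skip
  all_goals
    rcases h02 with h02 | h02 <;> rcases h10 with h10 | h10 <;> rcases h21 with h21 | h21 <;>
    first
    | (exfalso; linarith)
    | skip
  all_goals
    first
    | (refine ⟨true, 0, fin true 0 ?_ ?_ ?_ ?_ ?_⟩ <;> simp <;> linarith)
    | (refine ⟨true, 1, fin true 1 ?_ ?_ ?_ ?_ ?_⟩ <;> simp <;> linarith)
    | (refine ⟨true, 2, fin true 2 ?_ ?_ ?_ ?_ ?_⟩ <;> simp <;> linarith)
    | (refine ⟨false, 0, fin false 0 ?_ ?_ ?_ ?_ ?_⟩ <;> simp <;> linarith)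
    | (refine ⟨false, 1, fin false 1 ?_ ?_ ?_ ?_ ?_⟩ <;> simp <;> linarith)
    | (refine ⟨false, 2, fin false 2 ?_ ?_ ?_ ?_ ?_⟩ <;> simp <;> linarith)

lemma closure {m : ℕ} (x : C m × Bool → Bool) (lam : P m → ℝ) (hs : ∑ p, lam p = 1)
    (hx : ∀ i, ∑ p, lam p * emb (vec p) i = emb x i) : ∃ p, x = vec p := by
  classical
  have hc : ∀ k : C m, ∑ p ∈ sup k, lam p = 0 ∨ ∑ p ∈ sup k, lam p = 1 := by
    intro k
    rw [← comb_false, hx]
    exact emb01 _ _
  have hp : ∀ l a b, lam (l, true, a) + lam (l, false, b) = 0 ∨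
      lam (l, true, a) + lam (l, false, b) = 1 := by
    intro l a b
    rw [← sum_inl]; exact hc _
  set τ : Fin (m + 1) → ℝ := fun l => lam (l, true, 0) + lam (l, true, 1) + lam (l, true, 2) +
      (lam (l, false, 0) + lam (l, false, 1) + lam (l, false, 2)) with hτ
  have hsum : ∑ l, τ l = 1 := by rw [← hs, sum_all]
  have hτ0 : ∀ l, τ l = 0 ∨ 1 ≤ τ l := by
    intro l
    simp only [hτ]
    rcases hp l 0 0 with h0 | h0 <;> rcases hp l 1 1 with h1 | h1 <;>
      rcases hp l 2 2 with h2 | h2 <;> first | (left; linarith) | (right; linarith)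
  have hnn : ∀ l, 0 ≤ τ l := fun l => by rcases hτ0 l with h | h <;> linarith
  obtain ⟨l0, hl0⟩ : ∃ l0, 1 ≤ τ l0 := by
    by_contra hcon
    push Not at hcon
    have : ∑ l, τ l = 0 := Finset.sum_eq_zero (fun l _ => (hτ0 l).resolve_right (not_le.mpr (hcon l)))
    linarith
  have hsplit := Finset.add_sum_erase Finset.univ τ (Finset.mem_univ l0)
  have hrest : 0 ≤ ∑ l ∈ Finset.univ.erase l0, τ l := Finset.sum_nonneg (fun l _ => hnn l)
  have hl1 : τ l0 = 1 := by linarith
  have hoth : ∀ l, l ≠ l0 → τ l = 0 := by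
    intro l hl
    have h0 : ∑ l ∈ Finset.univ.erase l0, τ l = 0 := by linarith
    exact (Finset.sum_eq_zero_iff_of_nonneg (fun l _ => hnn l)).mp h0 l (by simp [hl])
  obtain ⟨s, a0, hsa⟩ := level1 (fun a => lam (l0, true, a)) (fun a => lam (l0, false, a))
    (hp l0) hl1
  set p0 : P m := (l0, s, a0) with hp0
  set mu : P m → ℝ := fun p => lam p - if p = p0 then 1 else 0 with hmu
  have hpair : ∀ l a b, mu (l, true, a) + mu (l, false, b) = 0 := by
    intro l a b
    by_cases hl : l = l0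
    · subst hl
      have := hsa a b
      simp only [hmu, hp0, Prod.mk.injEq, true_and] at this ⊢
      linarith
    · have := level0 (fun a => lam (l, true, a)) (fun a => lam (l, false, a)) (hp l)
        (hoth l hl) a b
      simp only [hmu, hp0, Prod.mk.injEq, hl, false_and, if_false]
      linarith
  have h1 : ∀ l a, mu (l, true, a) = mu (l, true, 0) := by
    intro l a
    have := hpair l a 0
    have := hpair l 0 0
    linarith
  have h2 : ∀ l a, mu (l, false, a) = - mu (l, true, 0) := by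
    intro l a
    have := hpair l 0 a
    linarith
  have havoid : ∀ (l : Fin m) (t : Bool), ∃ a, p0 ∉ sup (.inr (l, t, a)) := by
    intro l t
    by_cases h : l0 = l.succ
    · refine ⟨a0 + 1, ?_⟩
      have e1 : a0 ≠ a0 + 1 := (by decide : ∀ a : Fin 3, a ≠ a + 1) a0
      have e2 : l0 ≠ l.castSucc := by
        rw [h]; exact (Fin.castSucc_lt_succ (i := l)).ne'
      simp [sup, hp0, e1, e2]
    · refine ⟨a0, ?_⟩
      have e1 : a0 ≠ a0 + 1 := (by decide : ∀ a : Fin 3, a ≠ a + 1) a0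
      have e2 : a0 ≠ a0 + 2 := (by decide : ∀ a : Fin 3, a ≠ a + 2) a0
      simp [sup, hp0, h, e1, e2]
  have htri : ∀ (l : Fin m) (t : Bool), ∃ a, ∑ p ∈ sup (.inr (l, t, a)), mu p = 0 ∨
      ∑ p ∈ sup (.inr (l, t, a)), mu p = 1 := by
    intro l t
    obtain ⟨a, ha⟩ := havoid l t
    refine ⟨a, ?_⟩
    have : ∑ p ∈ sup (.inr (l, t, a)), mu p = ∑ p ∈ sup (.inr (l, t, a)), lam p := by
      refine Finset.sum_congr rfl (fun p hp => ?_)
      have : p ≠ p0 := fun e => ha (e ▸ hp)
      simp [hmu, this]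
    rw [this]
    exact hc _
  have h3 : ∀ l : Fin m, mu (l.succ, true, 0) = 2 * mu (l.castSucc, true, 0) := by
    intro l
    obtain ⟨a, ha⟩ := htri l true
    obtain ⟨b, hb⟩ := htri l false
    rw [sum_inr] at ha hb
    simp only [Bool.not_true, Bool.not_false] at ha hb
    rw [h1 _ a, h2 _ (a + 1), h2 _ (a + 2)] at ha
    rw [h2 _ b, h1 _ (b + 1), h1 _ (b + 2)] at hb
    rcases ha with ha | ha <;> rcases hb with hb | hb <;> linarith
  refine ⟨p0, emb_inj (funext fun i => ?_)⟩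
  have hb := balanced mu (fun l => mu (l, true, 0)) h1 h2 h3 i
  rw [← hx i]
  simp only [hmu, sub_mul, Finset.sum_sub_distrib, ite_mul, one_mul, zero_mul,
    Finset.sum_ite_eq', Finset.mem_univ, if_true] at hb
  linarith

end Pool.Agent.H11.Trade
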