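import Mathlib

namespace Pool.Agent.H11.Trade

/-- `f` is a weighted threshold function. -/
def Weighted {n : ℕ} (f : (Fin n → Bool) → Bool) : Prop :=
  ∃ (w : Fin n → ℝ) (q : ℝ), ∀ x, f x = true ↔ q ≤ ∑ i, w i * ((x i).toNat : ℝ)

/-- `f` is `k`-summable: for some `1 ≤ j ≤ k` there are `j` true and `j` false vectors with the
same sum. -/
def KSummable {n : ℕ} (f : (Fin n → Bool) → Bool) (k : ℕ) : Prop :=
  ∃ j : ℕ, 1 ≤ j ∧ j ≤ k ∧ ∃ x y : Fin j → Fin n → Bool,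
    (∀ a, f (x a) = true) ∧ (∀ a, f (y a) = false) ∧
      ∀ i, ∑ a, (x a i).toNat = ∑ a, (y a i).toNat

end Pool.Agent.H11.Trade
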