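import Mathlib
import Pool.Agent.H11.Trade.Defs
import Pool.Agent.H11.Trade.Core

namespace Pool.Agent.H11.Trade

open Finset

def cnt {ι : Type} [Fintype ι] (x : ι → Bool) : ℝ := ∑ i, emb x i

lemma cnt_vec {m : ℕ} (p : P m) : cnt (vec p) = Fintype.card (C m) := by
  unfold cnt
  rw [Fintype.sum_prod_type]
  have : ∀ c : C m, ∑ b : Bool, emb (vec p) (c, b) = 1 := by
    intro c
    by_cases h : p ∈ sup c <;> simp [emb, vec, h]
  rw [Finset.sum_congr rfl (fun c _ => this c), Finset.sum_const, Finset.card_univ, nsmul_eq_mul,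
    mul_one]

lemma cnt_lt {ι : Type} [Fintype ι] {x y : ι → Bool} (h : x ≤ y) (hne : x ≠ y) : cnt x < cnt y := by
  obtain ⟨i, hi⟩ := Function.ne_iff.mp hne
  apply Finset.sum_lt_sum
  · intro j _
    have := h j
    unfold emb
    cases hx : x j <;> cases hy : y j <;> simp_all
    exact absurd this (show ¬ (true ≤ false) by decide)
  · refine ⟨i, Finset.mem_univ _, ?_⟩
    have := h i
    unfold emb
    cases hx : x i <;> cases hy : y i <;> simp_all
    exact absurd this (show ¬ (true ≤ false) by decide)

lemma exists_phi (m : ℕ) : ∃ φ : (C m × Bool → ℝ) →ₗ[ℝ] ℝ, (∀ p, φ (emb (vec p)) = 0) ∧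
    ∀ x : C m × Bool → Bool, cnt x = Fintype.card (C m) → φ (emb x) = 0 → ∃ p, x = vec p := by
  classical
  set U : Submodule ℝ (C m × Bool → ℝ) := Submodule.span ℝ (Set.range fun p : P m => emb (vec p))
    with hU
  obtain ⟨ψ, hψ⟩ := Module.exists_dual_forall_apply_ne_zero (K := ℝ)
    (fun x : {x : C m × Bool → Bool // emb x ∉ U} => U.mkQ (emb x.1))
    (fun x => by simpa using x.2)
  refine ⟨ψ.comp U.mkQ, fun p => ?_, fun x hx h0 => ?_⟩
  · have : U.mkQ (emb (vec p)) = 0 := by
      simpa using Submodule.subset_span (Set.mem_range_self p)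
    simp only [LinearMap.comp_apply, this, map_zero]
  · have hm : emb x ∈ U := by
      by_contra hn
      exact hψ ⟨x, hn⟩ h0
    obtain ⟨lam, hlam⟩ := (Submodule.mem_span_range_iff_exists_fun ℝ).mp hm
    have hx2 : ∀ i, ∑ p, lam p * emb (vec p) i = emb x i := by
      intro i
      rw [← hlam]
      simp [Finset.sum_apply]
    refine closure x lam ?_ hx2
    have h1 : cnt x = (∑ p, lam p) * Fintype.card (C m) := by
      unfold cnt
      simp_rw [← hx2]
      rw [Finset.sum_comm, Finset.sum_mul]
      refine Finset.sum_congr rfl (fun p _ => ?_)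
      rw [← Finset.mul_sum, ← cnt_vec p]
      rfl
    have hpos : (0 : ℝ) < Fintype.card (C m) := by exact_mod_cast Fintype.card_pos
    rw [hx] at h1
    have : (∑ p, lam p - 1) * (Fintype.card (C m) : ℝ) = 0 := by linarith
    rcases mul_eq_zero.mp this with h | h
    · linarith
    · linarith

lemma vec_ne {m : ℕ} (l l' : Fin (m + 1)) (a b : Fin 3) :
    vec ((l, false, b) : P m) ≠ vec (l', true, a) := by
  intro h
  have e1 : a ≠ a + 1 := (by decide : ∀ a : Fin 3, a ≠ a + 1) a
  have := congrFun h (.inl (l, a + 1, b), false)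
  simp [vec, sup, e1] at this

theorem core (m : ℕ) : ∃ f : (C m × Bool → Bool) → Prop,
    (∀ x y, x ≤ y → f x → f y) ∧
    (¬ ∃ (w : C m × Bool → ℝ) (q : ℝ), ∀ x, f x ↔ q ≤ ∑ i, w i * emb x i) ∧
    ∀ (j : ℕ) (x y : Fin j → C m × Bool → Bool), 1 ≤ j → (∀ a, f (x a)) → (∀ a, ¬ f (y a)) →
      (∀ i, ∑ a, emb (x a) i = ∑ a, emb (y a) i) → 3 * 2 ^ m ≤ j := by
  classical
  obtain ⟨φ, hφ0, hφ1⟩ := exists_phi m
  set c : ℝ := (Fintype.card (C m) : ℝ) with hc
  refine ⟨fun x => c < cnt x ∨ (cnt x = c ∧ 0 < φ (emb x)) ∨ ∃ l a, x = vec (l, true, a),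
    ?_, ?_, ?_⟩
  · intro x y hxy hx
    by_cases he : x = y
    · exact he ▸ hx
    · left
      have h1 := cnt_lt hxy he
      rcases hx with h | h | ⟨l, a, h⟩
      · linarith
      · linarith [h.1]
      · rw [h, cnt_vec] at h1; exact h1
  · rintro ⟨w, q, hw⟩
    have hT : ∀ l a, q ≤ ∑ i, w i * emb (vec ((l, true, a) : P m)) i :=
      fun l a => (hw _).mp (Or.inr (Or.inr ⟨l, a, rfl⟩))
    have hF : ∀ l a, ∑ i, w i * emb (vec ((l, false, a) : P m)) i < q := by
      intro l a
      by_contra hn
      rcases (hw _).mpr (not_lt.mp hn) with h | h | ⟨l', a', h⟩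
      · rw [cnt_vec] at h; exact lt_irrefl _ h
      · rw [hφ0] at h; exact lt_irrefl _ h.2
      · exact vec_ne _ _ _ _ h
    set d : P m → ℝ := fun p => if p.2.1 then 2 ^ (p.1 : ℕ) else - 2 ^ (p.1 : ℕ) with hd
    have hb := balanced d (fun l => 2 ^ (l : ℕ)) (fun l a => by simp [hd])
      (fun l a => by simp [hd]) (fun l => by simp [pow_succ, mul_comm])
    have h0 : ∑ p, d p * ∑ i, w i * emb (vec p) i = 0 := by
      simp_rw [Finset.mul_sum]
      rw [Finset.sum_comm]
      refine Finset.sum_eq_zero (fun i _ => ?_)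
      have : ∑ p, d p * (w i * emb (vec p) i) = w i * ∑ p, d p * emb (vec p) i := by
        rw [Finset.mul_sum]
        exact Finset.sum_congr rfl (fun p _ => by ring)
      rw [this, hb, mul_zero]
    rw [sum_all] at h0
    refine absurd h0 (ne_of_gt (Finset.sum_pos (fun l _ => ?_) Finset.univ_nonempty))
    simp only [hd, if_true, Bool.false_eq_true, if_false]
    have hp : (0 : ℝ) < 2 ^ (l : ℕ) := by positivity
    have := hT l 0
    have := hT l 1
    have := hT l 2
    have := hF l 0
    have := hF l 1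
    have := hF l 2
    nlinarith
  · intro j x y hj hx hy hsum
    have hcx : ∀ a, c ≤ cnt (x a) := by
      intro a
      rcases hx a with h | h | ⟨l, b, h⟩
      · exact h.le
      · exact h.1.ge
      · rw [h, cnt_vec]
    have hcy : ∀ a, cnt (y a) ≤ c := fun a => not_lt.mp (fun h => hy a (Or.inl h))
    have hcs : ∑ a, cnt (x a) = ∑ a, cnt (y a) := by
      unfold cnt
      rw [Finset.sum_comm, Finset.sum_comm (s := Finset.univ) (t := Finset.univ)
        (f := fun a i => emb (y a) i)]
      exact Finset.sum_congr rfl (fun i _ => hsum i)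
    have hce : ∀ a, cnt (x a) = cnt (y a) := by
      have h0 : ∑ a, (cnt (x a) - cnt (y a)) = 0 := by rw [Finset.sum_sub_distrib, hcs, sub_self]
      intro a
      have := (Finset.sum_eq_zero_iff_of_nonneg (fun a _ => by linarith [hcx a, hcy a])).mp h0 a
        (Finset.mem_univ a)
      linarith
    have hcx' : ∀ a, cnt (x a) = c := fun a => by linarith [hcx a, hcy a, hce a]
    have hcy' : ∀ a, cnt (y a) = c := fun a => by linarith [hcx a, hcy a, hce a]
    have hpx : ∀ a, 0 ≤ φ (emb (x a)) := by
      intro a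
      rcases hx a with h | h | ⟨l, b, h⟩
      · linarith [hcx' a]
      · exact h.2.le
      · rw [h, hφ0]
    have hpy : ∀ a, φ (emb (y a)) ≤ 0 :=
      fun a => not_lt.mp (fun h => hy a (Or.inr (Or.inl ⟨hcy' a, h⟩)))
    have hps : ∑ a, φ (emb (x a)) = ∑ a, φ (emb (y a)) := by
      rw [← map_sum, ← map_sum]
      congr 1
      funext i
      simpa [Finset.sum_apply] using hsum i
    have hpe : ∀ a, φ (emb (x a)) = φ (emb (y a)) := by
      have h0 : ∑ a, (φ (emb (x a)) - φ (emb (y a))) = 0 := by
        rw [Finset.sum_sub_distrib, hps, sub_self]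
      intro a
      have := (Finset.sum_eq_zero_iff_of_nonneg (fun a _ => by linarith [hpx a, hpy a])).mp h0 a
        (Finset.mem_univ a)
      linarith
    have hX : ∀ a, ∃ p : P m, p.2.1 = true ∧ x a = vec p := by
      intro a
      rcases hx a with h | h | ⟨l, b, h⟩
      · linarith [hcx' a]
      · linarith [h.2, hpy a, hpe a]
      · exact ⟨_, rfl, h⟩
    have hY : ∀ a, ∃ p : P m, p.2.1 = false ∧ y a = vec p := by
      intro a
      obtain ⟨⟨l, s, b⟩, hp⟩ := hφ1 (y a) (hcy' a) (by linarith [hpx a, hpy a, hpe a])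
      cases s
      · exact ⟨_, rfl, hp⟩
      · exact absurd (Or.inr (Or.inr ⟨l, b, hp⟩)) (hy a)
    choose px hpx1 hpx2 using hX
    choose py hpy1 hpy2 using hY
    set N : P m → ℕ := fun p => (Finset.univ.filter (fun a => px a = p)).card with hN
    set M : P m → ℕ := fun p => (Finset.univ.filter (fun a => py a = p)).card with hM
    have fib : ∀ (q : Fin j → P m) (h : P m → ℝ),
        ∑ p, ((Finset.univ.filter (fun a => q a = p)).card : ℝ) * h p = ∑ a, h (q a) := by
      intro q h
      rw [← Finset.sum_fiberwise (s := Finset.univ) (g := q) (f := fun a => h (q a))]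
      refine Finset.sum_congr rfl (fun p _ => ?_)
      rw [Finset.sum_congr rfl (g := fun _ => h p) (fun a ha => by
        rw [(Finset.mem_filter.mp ha).2])]
      simp
    have hzero : ∀ k : C m, ∑ p ∈ sup k, ((N p : ℝ) - M p) = 0 := by
      intro k
      rw [← comb_false]
      simp only [sub_mul, Finset.sum_sub_distrib, hN, hM]
      rw [fib px (fun p => emb (vec p) (k, false)), fib py (fun p => emb (vec p) (k, false))]
      have := hsum (k, false)
      simp only [hpx2, hpy2] at this
      linarith
    have hNF : ∀ l a, N (l, false, a) = 0 := by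
      intro l a
      simp only [hN, Finset.card_eq_zero, Finset.filter_eq_empty_iff]
      intro b _ h
      have := hpx1 b
      rw [h] at this
      simp at this
    have hMT : ∀ l a, M (l, true, a) = 0 := by
      intro l a
      simp only [hM, Finset.card_eq_zero, Finset.filter_eq_empty_iff]
      intro b _ h
      have := hpy1 b
      rw [h] at this
      simp at this
    have hpair : ∀ l a b, N (l, true, a) = M (l, false, b) := by
      intro l a b
      have := hzero (.inl (l, a, b))
      rw [sum_inl, hNF, hMT] at this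
      have h2 : (N (l, true, a) : ℝ) = M (l, false, b) := by
        push_cast at this; linarith
      exact_mod_cast h2
    have hdbl : ∀ l : Fin m, N (l.succ, true, 0) = 2 * N (l.castSucc, true, 0) := by
      intro l
      have := hzero (.inr (l, true, 0))
      rw [sum_inr] at this
      simp only [Bool.not_true] at this
      rw [hNF, hNF, hMT, ← hpair _ 0, ← hpair _ 0] at this
      have h2 : (N (l.succ, true, 0) : ℝ) = 2 * N (l.castSucc, true, 0) := by
        push_cast at this; linarith
      exact_mod_cast h2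
    have hpow : ∀ l : Fin (m + 1), N (l, true, 0) = 2 ^ (l : ℕ) * N (0, true, 0) := by
      intro l
      induction l using Fin.induction with
      | zero => simp
      | succ l ih => rw [hdbl, ih]; simp [pow_succ]; ring
    have hall : ∀ l a, N (l, true, a) = 2 ^ (l : ℕ) * N (0, true, 0) := by
      intro l a
      rw [hpair l a 0, ← hpair l 0 0, hpow]
    have hpos : 1 ≤ N (0, true, 0) := by
      have h1 : 1 ≤ N (px ⟨0, hj⟩) := Finset.card_pos.mpr ⟨⟨0, hj⟩, by simp⟩
      have h2 := hpx1 ⟨0, hj⟩
      rcases hq : px ⟨0, hj⟩ with ⟨l, s, a⟩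
      rw [hq] at h1 h2
      have h3 : s = true := h2
      subst h3
      rw [hall] at h1
      by_contra hn
      have : N (0, true, 0) = 0 := by omega
      rw [this] at h1
      omega
    have htot : (j : ℝ) = ∑ p, (N p : ℝ) := by
      have := fib px (fun _ => 1)
      simp only [mul_one] at this
      rw [hN, this]
      simp
    rw [sum_all] at htot
    have hle := Finset.single_le_sum (f := fun l : Fin (m + 1) =>
      ((N (l, true, 0) : ℝ) + N (l, true, 1) + N (l, true, 2) +
        (N (l, false, 0) + N (l, false, 1) + N (l, false, 2))))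
      (fun l _ => add_nonneg (add_nonneg (add_nonneg (Nat.cast_nonneg _) (Nat.cast_nonneg _))
        (Nat.cast_nonneg _)) (add_nonneg (add_nonneg (Nat.cast_nonneg _) (Nat.cast_nonneg _))
        (Nat.cast_nonneg _))) (Finset.mem_univ (Fin.last m))
    rw [← htot] at hle
    rw [hall (Fin.last m) 0, hall (Fin.last m) 1, hall (Fin.last m) 2, hNF, hNF, hNF,
      Fin.val_last] at hle
    have h5 : 2 ^ m * N (0, true, 0) + 2 ^ m * N (0, true, 0) + 2 ^ m * N (0, true, 0) ≤ j := by
      have : ((2 ^ m * N (0, true, 0) + 2 ^ m * N (0, true, 0) + 2 ^ m * N (0, true, 0) : ℕ) : ℝ)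
          ≤ j := by
        push_cast at hle ⊢; linarith
      exact_mod_cast this
    have h6 : 2 ^ m ≤ 2 ^ m * N (0, true, 0) := Nat.le_mul_of_pos_right _ hpos
    omega

theorem main (n : ℕ) (hn : 18 ≤ n) : ∃ f : (Fin n → Bool) → Bool,
    Monotone f ∧ ¬ Weighted f ∧ ¬ KSummable f (2 ^ (n / 30)) := by
  classical
  set m := (n - 18) / 30 with hm
  obtain ⟨f, hf1, hf2, hf3⟩ := core m
  have hcard : Fintype.card (C m × Bool) ≤ Fintype.card (Fin n) := by
    simp only [Fintype.card_prod, Fintype.card_sum, Fintype.card_fin, Fintype.card_bool]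
    omega
  obtain ⟨e⟩ := Function.Embedding.nonempty_of_card_le hcard
  refine ⟨fun x => decide (f (x ∘ e)), ?_, ?_, ?_⟩
  · intro x y hxy
    by_cases h : f (x ∘ e)
    · have := hf1 (x ∘ e) (y ∘ e) (fun i => hxy (e i)) h
      simp [h, this]
    · simp [h]
  · rintro ⟨w, q, hw⟩
    refine hf2 ⟨w ∘ e, q, fun z => ?_⟩
    have h1 := hw (Function.extend e z (fun _ => false))
    have h2 : Function.extend e z (fun _ => false) ∘ e = z := funext (fun k => e.injective.extend_apply _ _ k)
    have h3 : ∑ i, w i * ((Function.extend e z (fun _ => false) i).toNat : ℝ) =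
        ∑ i, (w ∘ e) i * emb z i := by
      symm
      refine Finset.sum_of_injOn e e.injective.injOn (fun _ _ => Finset.mem_univ _) ?_ ?_
      · intro i _ hi
        rw [Function.extend_apply' _ _ _ (fun ⟨k, hk⟩ => hi ⟨k, by simp, hk⟩)]
        simp
      · intro k _
        rw [e.injective.extend_apply]
        rfl
    simp only [h2, h3] at h1
    simpa using h1
  · rintro ⟨j, hj1, hj2, x, y, hx, hy, hs⟩
    have := hf3 j (fun a => x a ∘ e) (fun a => y a ∘ e) hj1 (fun a => by simpa using hx a)
      (fun a => by simpa using hy a) (fun i => by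
        have := hs (e i)
        unfold emb
        exact_mod_cast this)
    have h2 : 2 ^ (n / 30) ≤ 2 ^ (m + 1) := Nat.pow_le_pow_right (by norm_num) (by omega)
    have h3 : 0 < 2 ^ m := by positivity
    rw [pow_succ] at h2
    omega

end Pool.Agent.H11.Trade
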